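import Mathlib
import Pool.Agent.TH198.AT.Conv

/-!
# AT line: existence for the Parisi equation, interface between the two halves
-/

set_option autoImplicit false

open MeasureTheory ProbabilityTheory Set Filter Topology

namespace Pool.TH198.AT

/-- Huber function: `u²` for `|u| ≤ 1`, `2|u| - 1` else -/
noncomputable def psi (u : ℝ) : ℝ := if |u| ≤ 1 then u ^ 2 else 2 * |u| - 1

/-- its derivative -/
noncomputable def dpsi (u : ℝ) : ℝ := if |u| ≤ 1 then 2 * u else if 0 < u then 2 else -2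

/-- derivative in `x` of the heat extension `E g(x + √w y)` -/
noncomputable def DD (w : ℝ) (g : ℝ → ℝ) (x : ℝ) : ℝ :=
  E1 (fun y => y * g (x + √w * y)) / √w

/-- EX-A: the mild equations for `v = f_x` and `w = f_xx`, with the Huber function -/
def St_MILD : Prop :=
  ∀ (β : ℝ) (ζ : ℝ → ℝ), 0 < β → IsCdf ζ → ∃ v w : ℝ → ℝ → ℝ,
    ContinuousOn (fun p : ℝ × ℝ => v p.1 p.2) (Icc 0 1 ×ˢ univ) ∧
    ContinuousOn (fun p : ℝ × ℝ => w p.1 p.2) (Icc 0 1 ×ˢ univ) ∧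
    (∃ C : ℝ, ∀ t ∈ Icc (0 : ℝ) 1, ∀ x, |v t x| ≤ C ∧ |w t x| ≤ C) ∧
    (∀ t ∈ Icc (0 : ℝ) 1, ∀ x, HasDerivAt (v t) (w t x) x) ∧
    (∀ t ∈ Icc (0 : ℝ) 1, ∀ x, v t x =
      E1 (fun y => Real.tanh (x + √(2 * β ^ 2 * (1 - t)) * y)) +
        ∫ r in t..1, β ^ 2 * (ζ r * DD (2 * β ^ 2 * (r - t)) (fun u => psi (v r u)) x)) ∧
    (∀ t ∈ Icc (0 : ℝ) 1, ∀ x, w t x =
      E1 (fun y => sech (x + √(2 * β ^ 2 * (1 - t)) * y) ^ 2) +
        ∫ r in t..1, β ^ 2 * (ζ r *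
          DD (2 * β ^ 2 * (r - t)) (fun u => dpsi (v r u) * w r u) x))

end Pool.TH198.AT
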